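import Pool.Agent.Helper62.BX.Stm

/-!
# General families of cyclic covers `y ^ m = a(x, t) b(x, t) ^ (m - 1)` with big monodromy: statements

The eigen-summand with index `r`, `0 < r < m`, of the curve consists of the forms `u dx / (a ^ α b ^ β)`,
`α = r / m`, `β = 1 - α`, `deg u < N = deg a + deg b - 1`. The connection has the form `d / dt + M / W`,
`W = (t - c) w`; at `t = c` a zero of `a` meets a zero of `b`, the residue is nilpotent of rank one,
`μ M(c) = κ r eᵀ`. There is no form; the analogue of `Pool/Agent/Helper62/BW/Stm.lean` for the special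
linear group.
-/

set_option autoImplicit false

open Polynomial Matrix Finset Filter NumberField IsDedekindDomain

namespace Pool.Agent.Helper62.CX

open Pool.Agent.Helper62.BM Pool.Agent.Helper62.BW Pool.Agent.Helper62.BX

section defs

/-- The data. -/
structure Cdat (A : Type) [CommRing A] (n : ℕ) where
  M : Matrix (Fin n) (Fin n) A[X]
  w : A[X]
  c : A
  e : Fin n → A
  r : Fin n → A
  μ : A
  κ : A

variable {A : Type} [CommRing A] {n : ℕ}

/-- The denominator. -/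
noncomputable def Cdat.W (D : Cdat A n) : A[X] := (X - Polynomial.C D.c) * D.w

/-- The image of the data under a homomorphism. -/
noncomputable def Cdat.map (D : Cdat A n) {B : Type} [CommRing B] (φ : A →+* B) : Cdat B n where
  M := D.M.map (mapRingHom φ)
  w := D.w.map φ
  c := φ D.c
  e := fun i => φ (D.e i)
  r := fun i => φ (D.r i)
  μ := φ D.μ
  κ := φ D.κ

/-- The data are nondegenerate. -/
def Cdat.Ok (D : Cdat A n) : Prop :=
  D.w.eval D.c ≠ 0 ∧ D.μ ≠ 0 ∧ D.κ ≠ 0 ∧ D.e ≠ 0 ∧ D.r ≠ 0 ∧ ∑ i, D.e i * D.r i = 0 ∧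
    ∀ i j, D.μ * (D.M i j).eval D.c = D.κ * D.r i * D.e j

end defs

section field

variable {k : Type} [Field k] {n : ℕ}

/-- The connection matrix over the field of rational functions. -/
noncomputable def Cdat.B (D : Cdat k n) : Matrix (Fin n) (Fin n) (KX k) :=
  Matrix.of fun i j => ι k (D.M i j) * (ι k D.W)⁻¹

/-- `x` is a horizontal vector of power series at `c`: `W x' + M x = 0`. -/
def Cdat.HorC (D : Cdat k n) (x : Fin n → PowerSeries k) : Prop :=
  ∀ a, tay D.c D.W * PowerSeries.derivative k (x a) + ∑ b, tay D.c (D.M a b) * x b = 0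

/-- `y` is a horizontal functional: `W y' = y M`. -/
def Cdat.HorR (D : Cdat k n) (y : Fin n → PowerSeries k) : Prop :=
  ∀ a, tay D.c D.W * PowerSeries.derivative k (y a) = ∑ b, tay D.c (D.M b a) * y b

/-- The operator `W ∇` on matrices of polynomials. -/
noncomputable def Cdat.wD (D : Cdat k n) (θ : Matrix (Fin n) (Fin n) k[X]) :
    Matrix (Fin n) (Fin n) k[X] :=
  D.W • θ.map (fun q => derivative q) + D.M * θ - θ * D.M

/-- For the horizontal `x`, `y` with the values `r`, `e` at `c`: the entries of `x` and of `y` are linearly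
independent over `k[t]`, only scalar matrices commute with `x yᵀ`, and `x yᵀ` respects no form (if the
rank is at least three). -/
def Cdat.Strong (D : Cdat k n) : Prop :=
  ∀ x y : Fin n → PowerSeries k, D.HorC x → D.HorR y →
    (∀ a, PowerSeries.constantCoeff (x a) = D.r a) →
    (∀ a, PowerSeries.constantCoeff (y a) = D.e a) →
    (∀ z : Fin n → k[X], ∑ a, tay D.c (z a) * y a = 0 → z = 0) ∧
    (∀ z : Fin n → k[X], ∑ a, tay D.c (z a) * x a = 0 → z = 0) ∧
    (∀ θ : Matrix (Fin n) (Fin n) k[X],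
      θ.map (tay D.c) * Matrix.vecMulVec x y = Matrix.vecMulVec x y * θ.map (tay D.c) →
        ∃ q : k[X], θ = Matrix.diagonal fun _ => q) ∧
    (3 ≤ n → ∀ θ : Matrix (Fin n) (Fin n) k[X],
      Matrix.vecMulVec x y * θ.map (tay D.c) + θ.map (tay D.c) * (Matrix.vecMulVec x y)ᵀ = 0 →
        θ = 0)

/-- No alternating bivector is horizontal up to a factor. -/
def NoBil (k : Type) [Field k] {n : ℕ} (B : Matrix (Fin n) (Fin n) (KX k)) : Prop :=
  ∀ (E : Type) [Field E] [Algebra (KX k) E] [Algebra.IsAlgebraic (KX k) E] (δ : Der E),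
    (∀ q : k[X], δ (algebraMap (KX k) E (ι k q)) = algebraMap (KX k) E (ι k (derivative q))) →
    ∀ z : Matrix (Fin n) (Fin n) E, zᵀ = -z →
    (∃ lam : E, z.map (fun u => δ u) + B.map (algebraMap (KX k) E) * z +
      z * (B.map (algebraMap (KX k) E))ᵀ = lam • z) → z = 0

end field

/-! ## 1-5. Characteristic zero -/

/-- C1. As `W_OkMap`. -/
def C_OkMap : Prop :=
  ∀ (A : Type) [CommRing A] [IsDomain A] (n : ℕ) (D : Cdat A n), D.Ok → ∃ a₀ : A, a₀ ≠ 0 ∧
    ∀ (B : Type) [CommRing B] [IsDomain B] (φ : A →+* B), φ a₀ ≠ 0 → (D.map φ).Ok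

/-- C2. Proof. The first and the third part as in `W_Strong` (helper12's `BW/Strong.lean`, `BW/Schur.lean`); for
the second part let `Z = {z : ∑ z_a x_a = 0}` (rows over `k(t)`), it is stable under `z ↦ z' - Bᵀ z`, so its
annihilator `{u : z ⬝ u = 0}` is stable under `∂ + B`. For the last part let `U` be the matrices `θ` over `k(t)`
with `X θ + θ Xᵀ = 0`, `X = x yᵀ`; `U` is stable under transposition and under `θ ↦ θ' + B θ + θ Bᵀ`. A symmetric
`θ ∈ U` is zero (`x (θ y)ᵀ + (θ y) xᵀ = 0`, so `θ y = 0`, so `θ = 0` by the first part). So all `θ ∈ U` are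
alternating, `θ y = ρ x`; if `z θ = 0` then `ρ z x = 0`, so `z = 0`: `θ ≠ 0` is invertible (so `n` is even), and for
`θ₁ ∈ U` the matrix `θ₁ θ⁻¹` commutes with `X`, so it is a scalar. So `U` has dimension one and
`θ' + B θ + θ Bᵀ = λ θ`, against `NoBil`. -/
def C_Strong : Prop :=
  ∀ (k : Type) [Field k] [CharZero k] (n : ℕ), 2 ≤ n → ∀ D : Cdat k n, D.Ok → Irr k D.B →
    (n = 2 ∨ Odd n ∨ NoBil k D.B) → D.Strong

/-- C3. As `W_Tr` (helper90's `BW/Tr.lean`). -/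
def C_Tr : Prop :=
  ∀ (A : Type) [CommRing A] [IsDomain A] (n : ℕ) (D : Cdat A n), D.Ok →
    ∀ (k k' : Type) [Field k] [Field k'] [CharZero k] [CharZero k'] (ψ : A →+* k)
    (ψ' : A →+* k'), Function.Injective ψ → Function.Injective ψ' → (D.map ψ).Strong →
    (D.map ψ').Strong

/-- C4. As `W_Van` (helper38's `BW/Van.lean`). -/
def C_Van : Prop :=
  ∀ (k : Type) [Field k] [CharZero k] (n : ℕ) (D : Cdat k n), D.Ok →
    ∀ x y : Fin n → PowerSeries k, D.HorC x → D.HorR y →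
    (∀ a, PowerSeries.constantCoeff (x a) = D.r a) →
    (∀ a, PowerSeries.constantCoeff (y a) = D.e a) →
    ∀ Θ : Submodule k[X] (Matrix (Fin n) (Fin n) k[X]), (∀ θ ∈ Θ, D.wD θ ∈ Θ) →
    (∀ θ : Matrix (Fin n) (Fin n) k[X],
      (X - Polynomial.C D.c) • θ ∈ Θ → θ ∈ Θ) →
    (∀ θ ∈ Θ, D.e ⬝ᵥ (θ.map (Polynomial.eval D.c) *ᵥ D.r) = 0) → ∀ θ ∈ Θ,
      y ⬝ᵥ (θ.map (tay D.c) *ᵥ x) = 0

/-! ## 5-7. The ultraproducts -/

/-- C5. As `W_Con` (helper61's `BW/WCon*.lean`), with `K_Lie` in place of `S_Lie`: from `L_Res`, `L_PS` (twice: for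
`M` and for `- Mᵀ`), `C_Tr`, `C_Van`, `C_OkMap`. -/
def C_Con : Prop :=
  ∀ (n : ℕ), 2 ≤ n → ∀ (A : Type) [CommRing A] [IsDomain A] [CharZero A] (Dt : Cdat A n), Dt.Ok →
    (Dt.map (algebraMap A (FractionRing A))).Strong → ∀ (U : Ultrafilter ℕ) (C : ℕ → Type)
    [∀ i, Field (C i)] (p : ℕ → ℕ) [∀ i, Fact (p i).Prime] [∀ i, CharP (C i) (p i)],
    (∀ N : ℕ, ∀ᶠ i in (U : Filter ℕ), N < p i) → ∀ (φ : ∀ i, A →+* C i),
    (∀ a : A, a ≠ 0 → ∀ᶠ i in (U : Filter ℕ), φ i a ≠ 0) → ∀ (Df : ∀ i, Der (KX (C i))),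
    (∀ i, IsDer (Df i)) → ∀ (f : KX (UP U C) →+* UP U fun i => KX (C i)),
    (∀ q : Polynomial (∀ i, C i), f (ι _ (q.map (Helper62.BM.mk U))) =
        Helper62.BM.mk U fun i => ι (C i) (q.map (Pi.evalRingHom C i))) →
    (∀ (Dk : Der (KX (UP U C))), IsDer Dk → ∀ z, f (Dk z) = der U Df (f z)) →
    ∀ A₁ : Matrix (Fin n) (Fin n) (KX (UP U C)), A₁.trace = 0 →
      ∀ θ : Matrix (Fin n) (Fin n) (KX (UP U C)),
      (θ.map f * mkM U (fun i => pcv (Df i) (Dt.map (φ i)).B (p i))).trace = 0 →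
      (θ * A₁).trace = 0

/-- C6. As `W_Ind` (helper13's `BW/Ind.lean`) and `K_Ind`, with `K_Chart`. -/
def C_Ind : Prop :=
  ∀ (n d : ℕ), 2 ≤ n → d < n → ∀ (A : Type) [CommRing A] [IsDomain A] [CharZero A]
    (Dt : Cdat A n), Dt.Ok →
    (Dt.map (algebraMap A (FractionRing A))).Strong → ∀ (U : Ultrafilter ℕ) (C : ℕ → Type)
    [∀ i, Field (C i)] (p : ℕ → ℕ) [∀ i, Fact (p i).Prime] [∀ i, CharP (C i) (p i)],
    (∀ N : ℕ, ∀ᶠ i in (U : Filter ℕ), N < p i) → ∀ (φ : ∀ i, A →+* C i),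
    (∀ a : A, a ≠ 0 → ∀ᶠ i in (U : Filter ℕ), φ i a ≠ 0) → ∀ (D : ∀ i, Der (KX (C i))),
    (∀ i, IsDer (D i)) → ∀ (τ : ∀ i, KX (C i) →+* KX (C i)),
    (∀ i q, τ i (ι (C i) q) = ι (C i) (expand (C i) (p i) q)) →
    ∀ (f' : KX (UP U fun i => KX (C i)) →+* UP U fun i => KX (C i)),
    (∀ q : Polynomial (∀ i, KX (C i)), f' (ι _ (q.map (Helper62.BM.mk U))) =
        Helper62.BM.mk U fun i => (q.map (Pi.evalRingHom (fun i => KX (C i)) i)).eval₂ (τ i) (tX (C i))) →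
    (∀ (Dk : Der (KX (UP U fun i => KX (C i)))),
      IsDer Dk → ∀ z, f' (Dk z) = der U D (f' z)) →
    ∀ (Y : ∀ i, Matrix (Fin d) (Fin n) (KX (C i))),
    (∀ i j l, D i (Y i j l) = (Y i * (Dt.map (φ i)).B) j l) →
    (∀ i, ∀ c : Fin d → KX (C i), c ᵥ* Y i = 0 → c = 0) →
    ∀ G : MvPolynomial (Fin d × Fin n) (KX (UP U fun i => KX (C i))),
      MvPolynomial.eval₂ f' (fun u : Fin d × Fin n => Helper62.BM.mk U fun i =>
        Y i u.1 u.2) G = 0 → G = 0

/-- C7. As `w_NV` (helper62's `BW/NV.lean`) and `K_NV`. -/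
def C_NV : Prop :=
  ∀ (n d : ℕ), 2 ≤ n → d < n → ∀ (A : Type) [CommRing A] [IsDomain A] [CharZero A] [Countable A]
    (Dt : Cdat A n), Dt.Ok → (Dt.map (algebraMap A (FractionRing A))).Strong →
    ∀ e A₀ β : ℕ, ∃ (p₀ : ℕ) (a₀ : A), a₀ ≠ 0 ∧ ∀ (p : ℕ) [Fact p.Prime] (C : Type)
    [Field C] [CharP C p] (φ : A →+* C), p₀ ≤ p → φ a₀ ≠ 0 →
    ∀ (D : Der (KX C)), IsDer D → ∀ (Y : Matrix (Fin d) (Fin n) (KX C)),
    (∀ j l, D (Y j l) = (Y * (Dt.map φ).B) j l) → (∀ c : Fin d → KX C, c ᵥ* Y = 0 → c = 0) →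
    NVp C p (fun u : Fin d × Fin n => Y u.1 u.2) e A₀ β

/-! ## 8-14. The curves. The outer variable is `x`, the inner one `t` -/

section fam

variable {R : Type} [CommRing R]

/-- `r a' b + (m - r) a b'`, `a'` and `b'` some derivatives of `a` and `b`. -/
noncomputable def Lam (m r : ℕ) (a b a' b' : R) : R :=
  (r : R) * a' * b + ((m - r : ℕ) : R) * a * b'

variable {A : Type} [CommRing A]

/-- The family is of degrees `na`, `nb`, and smooth. -/
def GenC (na nb : ℕ) (a b : A[X][X]) : Prop :=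
  a.Monic ∧ b.Monic ∧ a.natDegree = na ∧ b.natDegree = nb ∧
    ((a * b).map (algebraMap A[X] (FractionRing A[X]))).Separable

/-- At `t = t₀` a zero of `a` meets a zero of `b` at `x₀`, transversally, and this is the only
degeneration. -/
def NodeC (a b : A[X][X]) (t₀ x₀ : A) (a₁ b₁ : A[X]) : Prop :=
  a.map (evalRingHom t₀) = (X - Polynomial.C x₀) * a₁ ∧
  b.map (evalRingHom t₀) = (X - Polynomial.C x₀) * b₁ ∧
    ((a₁ * b₁).map (algebraMap A (FractionRing A))).Separable ∧ (a₁ * b₁).eval x₀ ≠ 0 ∧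
    ((dt a).map (evalRingHom t₀)).eval x₀ * b₁.eval x₀ ≠
      ((dt b).map (evalRingHom t₀)).eval x₀ * a₁.eval x₀

/-- `m P_l a b + S_l (r ∂a/∂x b + (m - r) a ∂b/∂x) = W x ^ l (r ∂a/∂t b + (m - r) a ∂b/∂t)`. -/
def RelC (m r N : ℕ) (a b : A[X][X]) (W : A[X]) (P S : Fin N → A[X][X]) : Prop :=
  ∀ l : Fin N, (P l).natDegree < N ∧ (S l).natDegree ≤ N ∧
    (m : A[X][X]) * P l * (a * b) + S l * Lam m r a b (derivative a) (derivative b) =
      Polynomial.C W * X ^ (l : ℕ) * Lam m r a b (dt a) (dt b)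

/-- The Gauss-Manin connection (times `W`): the columns are `- (P_l + S_l')`. -/
noncomputable def Mc {N : ℕ} (P S : Fin N → A[X][X]) : Matrix (Fin N) (Fin N) A[X] :=
  Matrix.of fun i l => -(P l + derivative (S l)).coeff i

/-- The data of the family. -/
def FamC (m r na nb : ℕ) {N : ℕ} (a b : A[X][X]) (D : Cdat A N) (P S : Fin N → A[X][X]) : Prop :=
  GenC na nb a b ∧ N + 1 = na + nb ∧ RelC m r N a b D.W P S ∧ D.M = Mc P S

/-- The functionals `x ^ l ↦ [x ^ (p (i + 1) - 1)] (x ^ l a ^ qa b ^ qb)`, `i < d`, `l < N`. -/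
noncomputable def YC {R : Type} [CommRing R] (p qa qb d N : ℕ) (a b : R[X]) :
    Matrix (Fin d) (Fin N) R :=
  Matrix.of fun i l => (X ^ (l : ℕ) * (a ^ qa * b ^ qb)).coeff (p * ((i : ℕ) + 1) - 1)

/-- The number of the regular forms. -/
def dC (m r na nb : ℕ) : ℕ := (r * na + (m - r) * nb) / m

end fam

/-- C8. The local structure at the node. Proof (over the field of fractions `k` of `A`, then multiply by an
element of `A`). (i) The `d ∈ k[t]` with `d ∈ (a, b)`, that is `α a + β b = d`, `deg α < nb`, `deg β < na`, are an ideal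
`≠ 0`; its generator `ρ` is divisible by `t - t₀` (`x = x₀`) and not by its square: otherwise at `t = t₀`
`α₀ a₁ + β₀ b₁ = 0`, so `α₀ = κ b₁`, `β₀ = - κ a₁` with a constant `κ`, and the coefficient of `t - t₀` at `x = x₀` is
`κ (b₁ a_t - a₁ b_t) = 0`, so `κ = 0`, and `α, β` are divisible by `t - t₀`. (ii) `a` and `∂a/∂x` are coprime at `t₀`, so
there are `d_a ∈ k[t]`, `d_a(t₀) ≠ 0` and for every `l` an `S_a` with `S_a ∂a/∂x ≡ d_a x ^ l ∂a/∂t` modulo `a`; the same for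
`b`. (iii) `W = m d_a d_b ρ` and `S_l` = the remainder modulo `a b` of `m (d_b S_a β b + d_a S_b α a)`; then
`W x ^ l Lam(a_t, b_t) - S_l Lam(a', b')` is divisible by `a` and by `b`. -/
def C_Loc : Prop :=
  ∀ (A : Type) [CommRing A] [IsDomain A] [CharZero A] (m r na nb N : ℕ), 0 < r → r < m →
    N + 1 = na + nb → ∀ (a b : A[X][X]), GenC na nb a b → ∀ (t₀ x₀ : A) (a₁ b₁ : A[X]),
    NodeC a b t₀ x₀ a₁ b₁ → ∃ (w : A[X]) (P S : Fin N → A[X][X]), w.eval t₀ ≠ 0 ∧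
      RelC m r N a b ((X - Polynomial.C t₀) * w) P S

/-- C9. The residue. Proof. At `t = t₀`, with `V = r a₁' b₁ + (m - r) a₁ b₁'`: `m P (x - x₀) a₁ b₁ + S (m a₁ b₁ + (x - x₀) V) = 0`,
and `(x - x₀) a₁ b₁` is coprime to `m a₁ b₁ + (x - x₀) V`, so `S = - m λ (x - x₀) a₁ b₁`, `P = λ (m a₁ b₁ + (x - x₀) V)` with a constant
`λ` (degrees), and `P + S' = - λ (x - x₀) ((m - r) a₁' b₁ + r a₁ b₁')`. Moreover `P(x₀, t₀) = w(t₀) x₀ ^ l`: let
`a₁₀ = a₁(x₀)`, `b₁₀ = b₁(x₀)`, `u = - a_t(x₀, t₀) / a₁₀`, `v = - b_t(x₀, t₀) / b₁₀` (the velocities of the two zeros), `u ≠ v`,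
`s = (r v + (m - r) u) / m`; put `x = x₀ + s τ`, `t = t₀ + τ` in the relation and compare the coefficients of `τ ^ 2`
(`a = a₁₀ (s - u) τ + …`, `b = b₁₀ (s - v) τ + …`, `S = O(τ)`, `Lam(a', b') = O(τ ^ 2)`,
`Lam(a_t, b_t) = - a₁₀ b₁₀ (r u (s - v) + (m - r) v (s - u)) τ + …`, `m (s - u) (s - v) = - (r u (s - v) + (m - r) v (s - u))`). -/
def C_Rk : Prop :=
  ∀ (A : Type) [CommRing A] [IsDomain A] [CharZero A] (m r na nb N : ℕ), 0 < r → r < m →
    N + 1 = na + nb → ∀ (a b : A[X][X]), GenC na nb a b → ∀ (t₀ x₀ : A) (a₁ b₁ : A[X]),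
    NodeC a b t₀ x₀ a₁ b₁ → ∀ (w : A[X]) (P S : Fin N → A[X][X]),
      RelC m r N a b ((X - Polynomial.C t₀) * w) P S →
    ∀ i l : Fin N, (m : A) * (a₁ * b₁).eval x₀ * (Mc P S i l).eval t₀ =
      w.eval t₀ * ((X - Polynomial.C x₀) * (((m - r : ℕ) : A[X]) * derivative a₁ * b₁ +
        (r : A[X]) * a₁ * derivative b₁)).coeff i * x₀ ^ (l : ℕ)

/-- C10. The data (`N ≥ 2`): `e = (x₀ ^ l)`, `r` = the coefficients of
`(x - x₀) ((m - r) a₁' b₁ + r a₁ b₁')` (not zero: the leading coefficient is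
`(m - r) (na - 1) + r (nb - 1)`), `μ = m (a₁ b₁)(x₀)`, `κ = w(t₀)`. From `C_Loc`, `C_Rk`. -/
def C_Data : Prop :=
  ∀ (A : Type) [CommRing A] [IsDomain A] [CharZero A] (m r na nb N : ℕ), 0 < r → r < m →
    2 ≤ N → N + 1 = na + nb → ∀ (a b : A[X][X]), GenC na nb a b → ∀ (t₀ x₀ : A) (a₁ b₁ : A[X]),
    NodeC a b t₀ x₀ a₁ b₁ → ∃ (D : Cdat A N) (P S : Fin N → A[X][X]),
      FamC m r na nb a b D P S ∧ D.Ok

/-- C11. Horizontality of the functionals. Proof as `W_HWb`: `qa = r (p - 1) / m`, `m qa = - r`, `m qb = - (m - r)` in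
characteristic `p`, `m` is invertible, and
`m W ∂_t (x ^ l a ^ qa b ^ qb) = - W x ^ l Lam(a_t, b_t) a ^ (qa - 1) b ^ (qb - 1) = - m P a ^ qa b ^ qb - S Lam(a', b') a ^ (qa - 1) b ^ (qb - 1)`,
`m ∂_x (S a ^ qa b ^ qb) = m S' a ^ qa b ^ qb - S Lam(a', b') a ^ (qa - 1) b ^ (qb - 1)`. -/
def C_HWb : Prop :=
  ∀ (R : Type) [CommRing R] (p : ℕ) [Fact p.Prime] [CharP R p] (m r d N : ℕ), m ∣ p - 1 →
    0 < r → r < m → ∀ (a b : R[X][X]) (W : R[X]) (P S : Fin N → R[X][X]),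
    RelC m r N a b W P S → ∀ (i : Fin d) (l : Fin N),
    W * derivative (YC p (r * ((p - 1) / m)) ((m - r) * ((p - 1) / m)) d N a b i l) =
      ∑ j, YC p (r * ((p - 1) / m)) ((m - r) * ((p - 1) / m)) d N a b i j * Mc P S j l

/-- C12. The degrees. -/
def C_HWdeg : Prop :=
  ∀ (R : Type) [CommRing R] (p qa qb d N T : ℕ) (a b : R[X][X]),
    (∀ i, (a.coeff i).natDegree ≤ T) → (∀ i, (b.coeff i).natDegree ≤ T) → qa + qb ≤ p →
    ∀ (i : Fin d) (l : Fin N), (YC p qa qb d N a b i l).natDegree ≤ T * p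

/-- C13. The functionals are independent. Proof as `K_HWrank` / `L_HWrank` (helper18's `BL/HR.lean`): let
`Φ = a ^ qa b ^ qb`, `C = ∑ c_i x ^ (- p (i + 1))`; then `Φ C = R + O(x ^ (- N - 1))`, `R` a polynomial, and
`m a b (Φ C)' + Lam(a', b') Φ C = 0`, so `m a b R' + Lam(a', b') R = 0` (the other side has negative degree), so the zeros
of `a` are zeros of `R` of multiplicity `≡ qa`, those of `b` of multiplicity `≡ qb`, and `Φ` divides `R`; by the degrees
`R = 0`. If `c_i ≠ 0` is the first one, the degree gives `p (i + 1) ≥ (p - 1) σ + N + 1`, `σ = (r na + (m - r) nb) / m`,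
not an integer, `i + 1 ≤ ⌊σ⌋`, a contradiction. -/
def C_HWrank : Prop :=
  ∀ (F : Type) [Field F] (p : ℕ) [Fact p.Prime] [CharP F p] (m r na nb N : ℕ), m ∣ p - 1 →
    0 < r → r < m → ¬ m ∣ r * na + (m - r) * nb → N + 1 = na + nb → N + 1 < p → ∀ (a b : F[X]),
    a.natDegree = na → b.natDegree = nb → (a * b).Separable →
    ∀ c : Fin (dC m r na nb) → F,
    c ᵥ* YC p (r * ((p - 1) / m)) ((m - r) * ((p - 1) / m)) (dC m r na nb) N a b = 0 → c = 0

/-! ## 15-19. The theorems -/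

/-- C14. As `w_FewG` (helper62's `BW/Few.lean`, `BW/Frame.lean`) and `K_FewG` (helper12's `BM/KFewG.lean`). -/
def C_FewG : Prop :=
  ∀ (m r na nb N : ℕ), 0 < r → r < m → ¬ m ∣ r * na + (m - r) * nb → 2 ≤ N → 1 ≤ na → 1 ≤ nb →
    ∀ (A : Type) [CommRing A] [IsDomain A] [CharZero A] [Countable A]
    (a b : A[X][X]) (D : Cdat A N) (P S : Fin N → A[X][X]), FamC m r na nb a b D P S → D.Ok →
    (D.map (algebraMap A (FractionRing A))).Strong →
    ∀ G : MvPolynomial (Fin (dC m r na nb) × Fin (dC m r na nb)) A[X], G ≠ 0 →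
    ∀ ε : ℝ, 0 < ε → ∃ (p₀ : ℕ) (a₀ : A), a₀ ≠ 0 ∧
      ∀ (p : ℕ) [Fact p.Prime] (k : Type) [Field k] [CharP k p] (φ : A →+* k), p₀ ≤ p →
      m ∣ p - 1 → φ a₀ ≠ 0 → ∀ T : Finset k, (∀ t ∈ T, t ^ p = t ∧
        MvPolynomial.eval₂ ((evalRingHom t).comp (mapRingHom φ))
          (fun s : Fin (dC m r na nb) × Fin (dC m r na nb) =>
          (YC p (r * ((p - 1) / m)) ((m - r) * ((p - 1) / m)) (dC m r na nb) (dC m r na nb)
            (a.map (mapRingHom φ)) (b.map (mapRingHom φ)) s.1 s.2).eval t) G = 0) →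
        (T.card : ℝ) ≤ ε * p

/-- C15. For `2 r = m` the symplectic case: the data for `F = a b` (`BW/Stm.lean`). From `C_Loc` with `m = 2`, `r = 1`
(`Rel g (a b) (2 W) (2 P) S`), `C_Rk`, `W_Hor`, `W_QDet`, `W_Qe` with `f₁ = a₁ b₁`, as `w_data`. -/
def C_Half : Prop :=
  ∀ (A : Type) [CommRing A] [IsDomain A] [CharZero A] (na nb g : ℕ), 1 ≤ g →
    2 * g + 1 = na + nb → ∀ (a b : A[X][X]), GenC na nb a b → ∀ (t₀ x₀ : A) (a₁ b₁ : A[X]),
    NodeC a b t₀ x₀ a₁ b₁ → ∃ (D : Dat A g) (P S : Fin (2 * g) → A[X][X]),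
      Fam g (a * b) D P S ∧ D.Ok

/-- The Gauss-Manin connection on the summand with the index `r` is irreducible over all algebraic
extensions `E` of `k(t)`: on the `u`, `deg u < N`, it is `∇ u = u' - P - ∂S / ∂x` if
`m P a b + S (r ∂a/∂x b + (m - r) a ∂b/∂x) = u (r ∂a/∂t b + (m - r) a ∂b/∂t)`, `deg P < N`, `deg S ≤ N`. -/
def IrrC (k : Type) [Field k] (m r N : ℕ) (a b : k[X][X]) : Prop :=
  ∀ (E : Type) [Field E] [Algebra (KX k) E] [Algebra.IsAlgebraic (KX k) E] (δ : Der E),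
    (∀ q : k[X], δ (algebraMap (KX k) E (ι k q)) = algebraMap (KX k) E (ι k (derivative q))) →
    ∀ W : Submodule E E[X], W ≤ degreeLT E N →
    (∀ u ∈ W, ∀ P S : E[X], P.natDegree < N → S.natDegree ≤ N →
      (m : E[X]) * P * ((a * b).map ((algebraMap (KX k) E).comp (ι k))) +
        S * (Lam m r a b (derivative a) (derivative b)).map ((algebraMap (KX k) E).comp (ι k)) =
        u * (Lam m r a b (dt a) (dt b)).map ((algebraMap (KX k) E).comp (ι k)) →
      dE δ u - P - derivative S ∈ W) → W = ⊥ ∨ W = degreeLT E N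

/-- No alternating bilinear form on the summand with the index `r` is horizontal up to a factor. -/
def NoBilC (k : Type) [Field k] (m r N : ℕ) (a b : k[X][X]) : Prop :=
  ∀ (E : Type) [Field E] [Algebra (KX k) E] [Algebra.IsAlgebraic (KX k) E] (δ : Der E),
    (∀ q : k[X], δ (algebraMap (KX k) E (ι k q)) = algebraMap (KX k) E (ι k (derivative q))) →
    ∀ (β : E[X] →ₗ[E] E[X] →ₗ[E] E) (lam : E), (∀ u, β u u = 0) →
    (∀ u ∈ degreeLT E N, ∀ v ∈ degreeLT E N, ∀ P S P' S' : E[X],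
      P.natDegree < N → S.natDegree ≤ N → P'.natDegree < N → S'.natDegree ≤ N →
      (m : E[X]) * P * ((a * b).map ((algebraMap (KX k) E).comp (ι k))) +
        S * (Lam m r a b (derivative a) (derivative b)).map ((algebraMap (KX k) E).comp (ι k)) =
        u * (Lam m r a b (dt a) (dt b)).map ((algebraMap (KX k) E).comp (ι k)) →
      (m : E[X]) * P' * ((a * b).map ((algebraMap (KX k) E).comp (ι k))) +
        S' * (Lam m r a b (derivative a) (derivative b)).map ((algebraMap (KX k) E).comp (ι k)) =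
        v * (Lam m r a b (dt a) (dt b)).map ((algebraMap (KX k) E).comp (ι k)) →
      δ (β u v) = β (dE δ u - P - derivative S) v + β u (dE δ v - P' - derivative S') +
        lam * β u v) → ∀ u ∈ degreeLT E N, ∀ v ∈ degreeLT E N, β u v = 0

/-- C16. The two forms of the irreducibility, as `W_Irr` (helper90's `BW/Irr.lean`). -/
def C_Irr : Prop :=
  ∀ (k : Type) [Field k] [CharZero k] (m r na nb N : ℕ), 0 < r → r < m → 1 ≤ N →
    ∀ (a b : k[X][X]) (D : Cdat k N) (P S : Fin N → k[X][X]), FamC m r na nb a b D P S → D.Ok →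
    IrrC k m r N a b → Irr k D.B

/-- C17. The same for the forms. Proof. The image of a bivector `z` with `z' + B z + z Bᵀ = λ z` is stable under
`∂ + B`, so `z = 0` or `z` is invertible; then `β(u, v) = uᵀ z⁻¹ v` (extended by zero to the polynomials of degree
`≥ N`) satisfies `δ β(u, v) = β(∇ u, v) + β(u, ∇ v) - λ β(u, v)`. -/
def C_Bil : Prop :=
  ∀ (k : Type) [Field k] [CharZero k] (m r na nb N : ℕ), 0 < r → r < m → 1 ≤ N →
    ∀ (a b : k[X][X]) (D : Cdat k N) (P S : Fin N → k[X][X]), FamC m r na nb a b D P S → D.Ok →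
    Irr k D.B → NoBilC k m r N a b → NoBil k D.B

/-- C18. For `2 r = m` the irreducibility is the one of `BW/Stm.lean` for `F = a b`. -/
def C_IrrHalf : Prop :=
  ∀ (k : Type) [Field k] [CharZero k] (m r g : ℕ), 0 < r → 2 * r = m → 1 ≤ g →
    ∀ (a b : k[X][X]), IrrC k m r (2 * g) a b → IrrF k g (a * b)

section place

variable {K : Type} [Field K] [NumberField K]

/-- The member of the family. -/
noncomputable def memC (F : (𝓞 K)[X][X]) (s : 𝓞 K) : (𝓞 K)[X] := F.map (evalRingHom s)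

/-- The curve `y ^ m = a b ^ (m - 1)` has good ordinary reduction at `v`, and the polynomials `G r` in `s` and the
entries of the blocks do not vanish at `v`. -/
def GoodM (m na nb : ℕ) (a b : (𝓞 K)[X][X])
    (G : ∀ r, MvPolynomial (Fin (dC m r na nb) × Fin (dC m r na nb)) (𝓞 K)[X]) (s : 𝓞 K)
    (v : HeightOneSpectrum (𝓞 K)) : Prop :=
  (m : 𝓞 K) ∉ v.asIdeal ∧ (rd v (memC a s * memC b s)).Separable ∧
    ∀ r, 0 < r → r < m →
      (YC (Ideal.absNorm v.asIdeal) (r * ((Ideal.absNorm v.asIdeal - 1) / m))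
        ((m - r) * ((Ideal.absNorm v.asIdeal - 1) / m)) (dC m r na nb) (dC m r na nb)
        (rd v (memC a s)) (rd v (memC b s))).det ≠ 0 ∧
      MvPolynomial.eval₂ ((algebraMap (𝓞 K) v.asIdeal.ResidueField).comp (evalRingHom s))
        (fun u => YC (Ideal.absNorm v.asIdeal) (r * ((Ideal.absNorm v.asIdeal - 1) / m))
          ((m - r) * ((Ideal.absNorm v.asIdeal - 1) / m)) (dC m r na nb) (dC m r na nb)
          (rd v (memC a s)) (rd v (memC b s)) u.1 u.2) (G r) ≠ 0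

variable {q : ℕ}

/-- The same with parameters. -/
def GoodMp (m na nb : ℕ) (a b : (Rp K q)[X][X]) (φ : (Rp K q)[X])
    (G : ∀ r, MvPolynomial (Fin (dC m r na nb) × Fin (dC m r na nb)) (Rp K q)[X])
    (v : HeightOneSpectrum (𝓞 K)) (s : Fin q → ℕ) (t : ℕ) : Prop :=
  GoodM m na nb (a.map (mapRingHom (evs s))) (b.map (mapRingHom (evs s)))
    (fun r => MvPolynomial.map (mapRingHom (evs s)) (G r)) ((φ.map (evs s)).eval (t : 𝓞 K)) v

end place

/-- C19. Number fields, with parameters. As helper4's `BX/W.lean` (`X_W`) and `BM/KFewK.lean`: for `2 r ≠ m` from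
`C_Data`, `C_Strong`, `C_Tr`, `C_Irr`, `C_Bil`, `C_FewG`; for `2 r = m` from `C_Half`, `C_IrrHalf`, `W_Irr`, `W_Strong`, `W_Tr`, `W_FewG`
(`Yh p g _ (a b)` is `YC p ((p-1)/2) ((p-1)/2)`, `dC m r na nb = g`). -/
def C_FewR : Prop :=
  ∀ (K : Type) [Field K] [NumberField K] (q m na nb N : ℕ), 2 ≤ m → 1 ≤ na → 1 ≤ nb → 2 ≤ N →
    N + 1 = na + nb → (∀ r, 0 < r → r < m → ¬ m ∣ r * na + (m - r) * nb) →
    ∀ (a b : (Rp K q)[X][X]) (φ : (Rp K q)[X]), GenC na nb a b →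
    (∃ (t₀ x₀ : Cl K q) (a₁ b₁ : (Cl K q)[X]),
      NodeC (a.map (mapRingHom (algebraMap (Rp K q) (Cl K q))))
        (b.map (mapRingHom (algebraMap (Rp K q) (Cl K q)))) t₀ x₀ a₁ b₁) →
    (∀ r, 0 < r → r < m → IrrC (Cl K q) m r N
      (a.map (mapRingHom (algebraMap (Rp K q) (Cl K q))))
      (b.map (mapRingHom (algebraMap (Rp K q) (Cl K q)))) ∧
      (2 * r = m ∨ N = 2 ∨ Odd N ∨ NoBilC (Cl K q) m r N
        (a.map (mapRingHom (algebraMap (Rp K q) (Cl K q))))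
        (b.map (mapRingHom (algebraMap (Rp K q) (Cl K q)))))) → 1 ≤ φ.natDegree →
    ∀ G : ∀ r, MvPolynomial (Fin (dC m r na nb) × Fin (dC m r na nb)) (Rp K q)[X],
    (∀ r, G r ≠ 0) → FewR (fun v => m ∣ Ideal.absNorm v.asIdeal - 1) (GoodMp m na nb a b φ G)

/-- C20. The periodicity, as `X_Per`. -/
def C_Per : Prop :=
  ∀ (K : Type) [Field K] [NumberField K] (q m na nb : ℕ) (a b : (Rp K q)[X][X])
    (φ : (Rp K q)[X])
    (G : ∀ r, MvPolynomial (Fin (dC m r na nb) × Fin (dC m r na nb)) (Rp K q)[X]),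
    Per (GoodMp m na nb a b φ G)

end Pool.Agent.Helper62.CX
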