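import Pool.Agent.Helper62.CX.Stm

/-!
# Reductions of the data
-/

set_option autoImplicit false

open Polynomial Matrix Finset

namespace Pool.Agent.Helper62.CX

open Pool.Agent.Helper62.BM Pool.Agent.Helper62.BW

section maps

variable {A B : Type} [CommRing A] [CommRing B] {n : ℕ}

theorem map_W (D : Cdat A n) (φ : A →+* B) : (D.map φ).W = D.W.map φ := by
  show (X - Polynomial.C (φ D.c)) * D.w.map φ = ((X - Polynomial.C D.c) * D.w).map φ
  rw [Polynomial.map_mul, Polynomial.map_sub, Polynomial.map_X, Polynomial.map_C]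

theorem map_map {C : Type} [CommRing C] (D : Cdat A n) (φ : A →+* B) (ψ : B →+* C) :
    (D.map φ).map ψ = D.map (ψ.comp φ) := by
  have h : (mapRingHom ψ).comp (mapRingHom φ) = mapRingHom (ψ.comp φ) := mapRingHom_comp ψ φ
  have hM : ∀ M : Matrix (Fin n) (Fin n) A[X],
      (M.map (mapRingHom φ)).map (mapRingHom ψ) = M.map (mapRingHom (ψ.comp φ)) := by
    intro M
    ext1 i j
    rw [Matrix.map_apply, Matrix.map_apply, Matrix.map_apply, ← h]
    rfl
  unfold Cdat.map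
  simp only [hM, Polynomial.map_map]
  rfl

theorem okMap_all (D : Cdat A n) (h : D.Ok) (φ : A →+* B)
    (h3 : φ (D.w.eval D.c) ≠ 0) (h4 : φ D.μ ≠ 0)
    (h5 : φ D.κ ≠ 0) (h6 : (fun i => φ (D.e i)) ≠ 0) (h7 : (fun i => φ (D.r i)) ≠ 0) :
    (D.map φ).Ok := by
  obtain ⟨-, -, -, -, -, o5, o6⟩ := h
  refine ⟨?_, h4, h5, h6, h7, ?_, ?_⟩
  · show (D.w.map φ).eval (φ D.c) ≠ 0
    rwa [Polynomial.eval_map_apply]
  · show ∑ i, φ (D.e i) * φ (D.r i) = 0
    rw [← map_zero φ, ← o5, map_sum]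
    exact Finset.sum_congr rfl fun i _ => (map_mul φ _ _).symm
  · intro i j
    show φ D.μ * ((D.M i j).map φ).eval (φ D.c) = φ D.κ * φ (D.r i) * φ (D.e j)
    rw [Polynomial.eval_map_apply, ← map_mul, ← map_mul, ← map_mul, o6]

theorem c_okMap : C_OkMap := by
  intro A _ _ n D h
  have h' := h
  obtain ⟨o3, o4, o5, o6, o7, -, -⟩ := h'
  obtain ⟨i, hi'⟩ : ∃ i, D.e i ≠ 0 := by
    by_contra hcon
    push Not at hcon
    exact o6 (funext hcon)
  obtain ⟨j, hj'⟩ : ∃ i, D.r i ≠ 0 := by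
    by_contra hcon
    push Not at hcon
    exact o7 (funext hcon)
  refine ⟨D.w.eval D.c * D.μ * D.κ * D.e i * D.r j,
    mul_ne_zero (mul_ne_zero (mul_ne_zero (mul_ne_zero o3 o4) o5) hi') hj',
    fun B _ _ φ hφ => ?_⟩
  simp only [map_mul] at hφ
  have k1 := left_ne_zero_of_mul hφ
  have k2 := left_ne_zero_of_mul k1
  have k3 := left_ne_zero_of_mul k2
  refine okMap_all D h φ (left_ne_zero_of_mul k3) (right_ne_zero_of_mul k3)
    (right_ne_zero_of_mul k2) ?_ ?_
  · intro h0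
    exact right_ne_zero_of_mul k1 (congrFun h0 i)
  · intro h0
    exact right_ne_zero_of_mul hφ (congrFun h0 j)

/-- Injective homomorphisms. -/
theorem ok_inj [IsDomain A] [IsDomain B] (D : Cdat A n) (h : D.Ok) (φ : A →+* B)
    (hφ : Function.Injective φ) : (D.map φ).Ok := by
  obtain ⟨a₀, ha, h1⟩ := c_okMap A n D h
  refine h1 B φ fun h0 => ha (hφ (h0.trans (map_zero φ).symm))

end maps

end Pool.Agent.Helper62.CX
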