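import Pool.Agent.Helper62.CX.Stm
import Pool.Agent.Helper62.BX.Per

/-!
# The reduction of a member modulo a place depends only on the parameters modulo the place
-/

set_option autoImplicit false

open Finset Polynomial

namespace Pool.Agent.Helper62.CX

open NumberField IsDedekindDomain
open Pool.Agent.Helper62.BM Pool.Agent.Helper62.BW Pool.Agent.Helper62.BX

section

variable {K : Type} [Field K] [NumberField K] {q : ℕ}

theorem mem_mod (v : HeightOneSpectrum (𝓞 K)) (hv : (Ideal.absNorm v.asIdeal).Prime)
    (s : Fin q → ℕ) (t : ℕ) (φ : (Rp K q)[X]) (F : (Rp K q)[X][X]) :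
    rd v (memC (F.map (mapRingHom (evs s))) ((φ.map (evs s)).eval (t : 𝓞 K))) =
      rd v (memC (F.map (mapRingHom (evs fun i => s i % Ideal.absNorm v.asIdeal)))
        ((φ.map (evs fun i => s i % Ideal.absNorm v.asIdeal)).eval
          ((t % Ideal.absNorm v.asIdeal : ℕ) : 𝓞 K))) := by
  unfold rd memC
  rw [Polynomial.map_map, Polynomial.map_map, Polynomial.map_map, Polynomial.map_map,
    coef_mod v hv s t φ]

end

theorem c_Per : C_Per := by
  intro K _ _ q m na nb a b φ G v hv s t
  have ha := mem_mod v hv s t φ a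
  have hb := mem_mod v hv s t φ b
  have hm : ∀ F G : (𝓞 K)[X], rd v (F * G) = rd v F * rd v G := fun F G =>
    Polynomial.map_mul _
  unfold GoodMp GoodM
  rw [hm, hm, ha, hb]
  simp only [MvPolynomial.eval₂_map, coef_mod v hv s t φ]

end Pool.Agent.Helper62.CX
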