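import Pool.Agent.Helper62.BX.Main
import Pool.Agent.Helper62.CX.Data
import Pool.Agent.Helper62.CX.Per
import Pool.Agent.Helper12.CX.Strong
import Pool.Agent.Helper13.CX.CInd
import Pool.Agent.Helper15.CX.Loc
import Pool.Agent.Helper15.CX.Rk
import Pool.Agent.Helper15.CX.FewA
import Pool.Agent.Helper18.CX.HW
import Pool.Agent.Helper18.CX.HR
import Pool.Agent.Helper18.CX.NV
import Pool.Agent.Helper36.CX.FewG
import Pool.Agent.Helper38.CX.Van
import Pool.Agent.Helper61.CX.CCon
import Pool.Agent.Helper82.CX.Data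
import Pool.Agent.Helper90.CX.Irr
import Pool.Agent.Helper90.CX.Tr

/-!
# Assembly: general families of cyclic covers
-/

set_option autoImplicit false

namespace Pool.Agent.Helper62.CX

open Pool.Agent.Helper62.BM Pool.Agent.Helper62.BW Pool.Agent.Helper62.BX

theorem cCon : C_Con :=
  Pool.Agent.Helper61.CX.c_con l_Res l_PS Pool.Agent.Helper90.CX.c_tr Pool.Agent.Helper38.CX.c_Van
    c_okMap Pool.Agent.Helper15.BM.klie

theorem cInd : C_Ind := Pool.Agent.Helper13.CInd.c_ind cCon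

theorem cNV : C_NV :=
  Pool.Agent.Helper18.CX.c_NV cInd Pool.Agent.Helper72.BM.emb Pool.Agent.Helper12.BM.tau

theorem cFewG : C_FewG :=
  Pool.Agent.Helper36.CX.c_FewG Pool.Agent.Helper4.BM.step cNV Pool.Agent.Helper12.BM.frac
    Pool.Agent.Helper18.CX.c_HWb Pool.Agent.Helper18.CX.c_HWdeg Pool.Agent.Helper18.CX.c_HWrank

theorem cData : C_Data :=
  Pool.Agent.Helper82.CX.c_Data Pool.Agent.Helper15.CX.c_loc Pool.Agent.Helper15.CX.c_rk

theorem cHalf : C_Half :=
  Pool.Agent.Helper82.CX.c_Half Pool.Agent.Helper15.CX.c_loc Pool.Agent.Helper15.CX.c_rk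
    Pool.Agent.Helper18.BW.w_Hor Pool.Agent.Helper82.BW.w_QDet Pool.Agent.Helper93.BW.w_qe

end Pool.Agent.Helper62.CX
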